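import Pool.Agent.Helper13.TR.StB

/-!
# Project TR, module BIS: cutting by a real function
-/

set_option autoImplicit false

namespace Pool.Agent.Helper90.TR

open Set Topology Pool.Agent.Helper13.TR

/-- a chain carried by the complement of `A` is a relative boundary -/
private theorem nul_of_cin {W : Type} [TopologicalSpace W] {A : Set W} {k : ℕ} {σ : Ch W k}
    (h : σ ∈ cin Aᶜ k) : σ ∈ Nul A k :=
  (le_sup_left : cin Aᶜ k ≤ Nul A k) h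

/-- near every value `r` the chain is still a relative boundary -/
private theorem local_nul (hCON : StCON) (hMON : StMON) {W : Type} [TopologicalSpace W]
    (B : Set W) (h : C(W, ℝ)) (k : ℕ) (σ : Ch W k) (hB : IsClosed B) (r : ℝ)
    (hr : σ ∈ Nul (B ∩ h ⁻¹' {r}) k) :
    ∃ δ > 0, ∀ J : Set ℝ, J ⊆ Ioo (r - δ) (r + δ) → σ ∈ Nul (B ∩ h ⁻¹' J) k := by
  obtain ⟨ρ, hρ, β, hβ, hσ⟩ := Submodule.mem_sup.1 hr
  obtain ⟨Q, hQc, hρQ, hQ⟩ := hCON.2 W k ρ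
  have hQs : Q ⊆ (B ∩ h ⁻¹' {r})ᶜ := hQ _ hρ
  have hK : IsCompact (Q ∩ B) := hQc.inter_right hB
  have hK' : IsClosed (h '' (Q ∩ B)) := (hK.image h.continuous).isClosed
  have hrn : r ∈ (h '' (Q ∩ B))ᶜ := by
    rintro ⟨x, ⟨hxQ, hxB⟩, hx⟩
    exact hQs hxQ ⟨hxB, hx⟩
  obtain ⟨δ, hδ, hball⟩ := Metric.isOpen_iff.1 hK'.isOpen_compl r hrn
  refine ⟨δ, hδ, fun J hJ => ?_⟩
  refine Submodule.mem_sup.2 ⟨ρ, ?_, β, hβ, hσ⟩
  refine (hMON W).1 Q _ k ?_ hρQ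
  rintro x hxQ ⟨hxB, hxJ⟩
  have h1 : h x ∈ Metric.ball r δ := by
    rw [Real.ball_eq_Ioo]
    exact hJ hxJ
  exact hball h1 ⟨x, ⟨hxQ, hxB⟩, rfl⟩

/-- gluing along one value -/
private theorem glue (hMV : StMV) {W : Type} [TopologicalSpace W]
    (B : Set W) (h : C(W, ℝ)) (k : ℕ) (σ : Ch W k) (hB : IsClosed B) (r : ℝ)
    (hr : PP (B ∩ h ⁻¹' {r}) (k + 1)) (J₁ J₂ : Set ℝ) (h₁ : IsClosed J₁) (h₂ : IsClosed J₂)
    (hJ : J₁ ∩ J₂ = {r}) (hσ₁ : σ ∈ Nul (B ∩ h ⁻¹' J₁) k) (hσ₂ : σ ∈ Nul (B ∩ h ⁻¹' J₂) k) :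
    σ ∈ Nul (B ∩ h ⁻¹' (J₁ ∪ J₂)) k := by
  have hc₁ : IsClosed (B ∩ h ⁻¹' J₁) := hB.inter (h₁.preimage h.continuous)
  have hc₂ : IsClosed (B ∩ h ⁻¹' J₂) := hB.inter (h₂.preimage h.continuous)
  have hi : (B ∩ h ⁻¹' J₁) ∩ (B ∩ h ⁻¹' J₂) = B ∩ h ⁻¹' {r} := by
    rw [← hJ, preimage_inter]
    ext x
    simp only [mem_inter_iff]
    tauto
  have hu : (B ∩ h ⁻¹' J₁) ∪ (B ∩ h ⁻¹' J₂) = B ∩ h ⁻¹' (J₁ ∪ J₂) := by
    rw [preimage_union]
    ext x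
    simp only [mem_inter_iff, mem_union]
    tauto
  have := (hMV W _ _ hc₁ hc₂ k).2.2.2.2
  rw [hi, hu] at this
  exact this hr σ hσ₁ hσ₂

theorem hBIS (hMV : StMV) (hCON : StCON) (hMON : StMON) : StBIS := by
  intro W _ _ B h k σ hB hPP hr
  obtain ⟨Q, hQc, hσQ, _⟩ := hCON.2 W k σ
  have hbd := (hQc.image h.continuous).isBounded
  obtain ⟨R, hR⟩ := hbd.subset_ball 0
  have hRx : ∀ x ∈ Q, -R < h x ∧ h x < R := by
    intro x hx
    have h1 : h x ∈ Metric.ball (0 : ℝ) R := hR ⟨x, hx, rfl⟩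
    rw [Real.ball_eq_Ioo] at h1
    exact ⟨by simpa using h1.1, by simpa using h1.2⟩
  have hlow : ∀ J : Set ℝ, J ⊆ (Ioo (-R) R)ᶜ → σ ∈ Nul (B ∩ h ⁻¹' J) k := by
    intro J hJ
    refine nul_of_cin ((hMON W).1 Q _ k ?_ hσQ)
    rintro x hxQ ⟨_, hxJ⟩
    exact hJ hxJ (hRx x hxQ)
  have mono : ∀ J J' : Set ℝ, J ⊆ J' → σ ∈ Nul (B ∩ h ⁻¹' J') k → σ ∈ Nul (B ∩ h ⁻¹' J) k := by
    intro J J' hJJ hσ
    exact ((hMON W).2.2.2.2.1 _ _ k (inter_subset_inter_right B (preimage_mono hJJ))).2 hσ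
  -- the set of good cut values
  have hall : ∀ r : ℝ, σ ∈ Nul (B ∩ h ⁻¹' (Iic r)) k := by
    by_contra hcon
    push Not at hcon
    obtain ⟨t, ht⟩ := hcon
    set S : Set ℝ := {r | σ ∈ Nul (B ∩ h ⁻¹' (Iic r)) k} with hS
    have hne : S.Nonempty := by
      refine ⟨-R, hlow _ ?_⟩
      intro x hx hx'
      exact absurd hx'.1 (not_lt.2 hx)
    have hbdd : BddAbove S := by
      refine ⟨t, fun r hr' => ?_⟩
      by_contra hlt
      exact ht (mono _ _ (Iic_subset_Iic.2 (not_le.1 hlt).le) hr')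
    obtain ⟨δ, hδ, hloc⟩ := local_nul hCON hMON B h k σ hB (sSup S) (hr (sSup S))
    obtain ⟨r, hrS, hrs⟩ := exists_lt_of_lt_csSup hne (sub_lt_self (sSup S) hδ)
    have hrle : r ≤ sSup S := le_csSup hbdd hrS
    have hσ₂ : σ ∈ Nul (B ∩ h ⁻¹' (Icc r (sSup S + δ / 2))) k := by
      refine hloc _ ?_
      intro x hx
      exact ⟨lt_of_lt_of_le hrs hx.1, by have := hx.2; linarith⟩
    have hle : r ≤ sSup S + δ / 2 := by linarith
    have hJ : Iic r ∩ Icc r (sSup S + δ / 2) = {r} := by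
      ext x
      simp only [mem_inter_iff, mem_Iic, mem_Icc, mem_singleton_iff]
      constructor
      · rintro ⟨h1, h2, _⟩
        exact le_antisymm h1 h2
      · rintro rfl
        exact ⟨le_refl _, le_refl _, hle⟩
    have hg := glue hMV B h k σ hB r (hPP r) _ _ isClosed_Iic isClosed_Icc hJ hrS hσ₂
    rw [Iic_union_Icc_eq_Iic hle] at hg
    have : sSup S + δ / 2 ≤ sSup S := le_csSup hbdd hg
    linarith
  have hIci : σ ∈ Nul (B ∩ h ⁻¹' (Ici R)) k := by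
    refine hlow _ ?_
    intro x hx hx'
    exact absurd hx'.2 (not_lt.2 hx)
  have hJ : Iic R ∩ Ici R = {R} := by
    ext x
    simp only [mem_inter_iff, mem_Iic, mem_Ici, mem_singleton_iff]
    constructor
    · rintro ⟨h1, h2⟩
      exact le_antisymm h1 h2
    · rintro rfl
      exact ⟨le_refl _, le_refl _⟩
  have hg := glue hMV B h k σ hB R (hPP R) _ _ isClosed_Iic isClosed_Ici hJ (hall R) hIci
  rw [Iic_union_Ici, preimage_univ, inter_univ] at hg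
  exact hg

end Pool.Agent.Helper90.TR
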